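import Pool.Agent.W2helper18.RX.Stm

set_option autoImplicit false

namespace Pool.Agent.W2helper17.RX

open Finset Pool.Agent.W2helper18.RX

theorem sh_cast (x : ℕ) : ((sh x : ℕ) : ℤ) = 2 ^ x - x := by
  unfold sh
  rw [Nat.cast_sub (Nat.lt_two_pow_self).le]
  push_cast
  ring

theorem p_B : P_B := by
  intro p L hp hpL r
  haveI := Fact.mk hp
  have hp0 : (0 : ℝ) < p := by exact_mod_cast hp.pos
  have hpLr : (p : ℝ) * p ≤ L := by
    have : ((p ^ 2 : ℕ) : ℝ) ≤ (L : ℝ) := by exact_mod_cast hpL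
    push_cast at this
    nlinarith
  rcases hp.eq_two_or_odd' with h2 | hodd
  · subst h2
    have h1 : #((Icc 1 L).filter fun x : ℕ => ((2 : ℕ) : ℤ) ∣ (sh x : ℤ) - r) ≤ L := by
      refine (card_filter_le _ _).trans ?_
      simp
    have h2 : ((#((Icc 1 L).filter fun x : ℕ => ((2 : ℕ) : ℤ) ∣ (sh x : ℤ) - r) : ℕ) : ℝ) ≤ L := by
      exact_mod_cast h1
    have h3 : (0 : ℝ) ≤ L := Nat.cast_nonneg L
    push_cast at h2 ⊢
    linarith
  · set e := orderOf (2 : ZMod p) with he
    have h2ne : (2 : ZMod p) ≠ 0 := by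
      intro h
      have : ((2 : ℕ) : ZMod p) = 0 := by exact_mod_cast h
      rw [ZMod.natCast_eq_zero_iff] at this
      have := (Nat.prime_dvd_prime_iff_eq hp Nat.prime_two).1 this
      subst this
      exact absurd hodd (by decide)
    have hpow : (2 : ZMod p) ^ (p - 1) = 1 := ZMod.pow_card_sub_one_eq_one h2ne
    have hdvd : e ∣ p - 1 := orderOf_dvd_of_pow_eq_one hpow
    have hp1 : 0 < p - 1 := by have := hp.two_le; omega
    have hele : e ≤ p - 1 := Nat.le_of_dvd hp1 hdvd
    have hepos : 0 < e := Nat.pos_of_dvd_of_pos hdvd hp1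
    have hcop : Nat.Coprime e p := by
      rw [Nat.coprime_comm, hp.coprime_iff_not_dvd]
      intro h
      have := Nat.le_of_dvd hepos h
      omega
    have hcard : #((Icc 1 L).filter fun x : ℕ => (p : ℤ) ∣ (sh x : ℤ) - r)
        ≤ #(range e ×ˢ range (L / (e * p) + 1)) := by
      refine card_le_card_of_injOn (fun x => (x % e, x / (e * p))) ?_ ?_
      · intro x hx
        simp only [coe_filter, mem_Icc, Set.mem_setOf_eq] at hx
        simp only [coe_product, coe_range, Set.mem_prod, Set.mem_Iio]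
        exact ⟨Nat.mod_lt _ hepos, Nat.lt_succ_of_le (Nat.div_le_div_right hx.1.2)⟩
      · intro x hx y hy hxy
        simp only [coe_filter, mem_Icc, Set.mem_setOf_eq] at hx hy
        simp only [Prod.mk.injEq] at hxy
        obtain ⟨hm, hd⟩ := hxy
        have key : ∀ z : ℕ, (p : ℤ) ∣ (sh z : ℤ) - r →
            (z : ZMod p) = 2 ^ (z % e) - (r : ZMod p) := by
          intro z hz
          rw [sh_cast, ← ZMod.intCast_zmod_eq_zero_iff_dvd] at hz
          push_cast at hz
          rw [he, pow_mod_orderOf]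
          linear_combination -hz
        have hxy' : (x : ZMod p) = (y : ZMod p) := by
          rw [key x hx.2, key y hy.2, hm]
        rw [ZMod.natCast_eq_natCast_iff] at hxy'
        have hmod : x ≡ y [MOD (e * p)] :=
          (Nat.modEq_and_modEq_iff_modEq_mul hcop).1 ⟨hm, hxy'⟩
        have h1 := Nat.div_add_mod x (e * p)
        have h2 := Nat.div_add_mod y (e * p)
        have h3 : x % (e * p) = y % (e * p) := hmod
        rw [← h1, ← h2, hd, h3]
    rw [card_product, card_range, card_range] at hcard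
    have hr : ((#((Icc 1 L).filter fun x : ℕ => (p : ℤ) ∣ (sh x : ℤ) - r) : ℕ) : ℝ)
        ≤ (e : ℝ) * (((L / (e * p) : ℕ) : ℝ) + 1) := by
      exact_mod_cast hcard
    have her : (0 : ℝ) < e := by exact_mod_cast hepos
    have hep : (e : ℝ) ≤ p := by
      have : e ≤ p := hele.trans (Nat.sub_le _ _)
      exact_mod_cast this
    have hdiv : ((L / (e * p) : ℕ) : ℝ) ≤ (L : ℝ) / (e * p) := by
      have := @Nat.cast_div_le ℝ _ _ _ L (e * p)
      push_cast at this
      exact this
    have h4 : (e : ℝ) * (((L / (e * p) : ℕ) : ℝ) + 1) ≤ (L : ℝ) / p + p := by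
      have : (e : ℝ) * ((L : ℝ) / (e * p)) = (L : ℝ) / p := by
        field_simp
      nlinarith [mul_le_mul_of_nonneg_left hdiv her.le]
    have h5 : (p : ℝ) ≤ L / p := by
      rw [le_div_iff₀ hp0]
      exact hpLr
    have h6 : (0 : ℝ) ≤ (L : ℝ) / p := by positivity
    have h7 : 4 * (L : ℝ) / p = 4 * ((L : ℝ) / p) := by ring
    rw [h7]
    linarith

end Pool.Agent.W2helper17.RX
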